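import Pool.Agent.Helper60.AD.Defs
import Pool.Agent.Helper11.AD.Small
import Pool.Agent.Helper22.AE.D3
import Pool.Agent.Helper22.AE.C1
import Pool.Agent.Helper22.LP.P5

/-!
# AD, block A10: summation over the blocks (deterministic part)
-/

open MeasureTheory Real Set Filter Topology

set_option autoImplicit false

namespace Pool.Agent.Helper90.AD

open Pool.Agent.Helper22.AE
open Pool.Agent.Helper22.AC (cntc)
open Pool.Agent.Helper92.GC (dt sqa)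
open Pool.Agent.Helper60.AD

private lemma k0c {β : ℝ} (hβ : 0 < β) : Continuous (k0 β) := by
  unfold k0
  exact continuous_const.div (by fun_prop) (fun α => by positivity)

private lemma k0n {β : ℝ} (hβ : 0 < β) (α : ℝ) : 0 ≤ k0 β α := by
  unfold k0
  positivity

/-- the kernel over the good angles -/
private lemma k0_good {β : ℝ} (hβ : 0 < β) : ∫ α in Icc (-π) π ∩ {α | 1 / 2 ≤ |cos α|}, k0 β α ≤ 20 := by
  have hpi := Real.pi_pos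
  refine le_trans ?_ (k0_int hβ)
  rw [intervalIntegral.integral_of_le (by linarith), ← integral_Icc_eq_integral_Ioc]
  refine setIntegral_mono_set ((k0c hβ).continuousOn.integrableOn_compact isCompact_Icc) ?_ ?_
  · exact ae_of_all _ (fun α => k0n hβ α)
  · exact (inter_subset_left (s := Icc (-π) π)).eventuallyLE

/-- the trivial bound of the sum -/
private lemma Sc_triv (h : ℝ → ℝ) (B : Finset (ℤ × ℤ)) (b : ℤ × ℤ → ℂ) (hb : ∀ k, ‖b k‖ ≤ 1) (R α : ℝ) (c : ℝ × ℝ) :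
    ‖Sc h B b R α c‖ ≤ B.card := by
  unfold Sc
  refine (norm_sum_le _ _).trans ((Finset.sum_le_card_nsmul _ _ 1 (fun k _ => ?_)).trans (le_of_eq (by rw [nsmul_eq_mul, mul_one])))
  rw [norm_mul, norm_mul, ee_norm, ee_norm, mul_one, mul_one]
  exact hb k

/-- the trivial bound of the mean -/
private lemma mean_triv (h : ℝ → ℝ) (m : ℕ) (b : ℝ → ℤ × ℤ → ℂ) (hb : ∀ α k, ‖b α k‖ ≤ 1) (R : ℝ) (c : ℝ × ℝ)
    {β : ℝ} (hβ : 0 < β) :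
    ∫ α in Icc (-π) π ∩ {α | 1 / 2 ≤ |cos α|}, k0 β α * ‖Sc h (blk m) (b α) R α c‖ ≤ 500 * 4 ^ m := by
  have hcomp : IsCompact (Icc (-π) π ∩ {α : ℝ | 1 / 2 ≤ |cos α|}) :=
    isCompact_Icc.inter_right (isClosed_le continuous_const (by fun_prop))
  have h1 : ∫ α in Icc (-π) π ∩ {α | 1 / 2 ≤ |cos α|}, k0 β α * ‖Sc h (blk m) (b α) R α c‖ ≤
      ∫ α in Icc (-π) π ∩ {α | 1 / 2 ≤ |cos α|}, k0 β α * (25 * 4 ^ m) := by
    refine integral_mono_of_nonneg (ae_of_all _ fun α => mul_nonneg (k0n hβ α) (norm_nonneg _)) ?_ (ae_of_all _ fun α => ?_)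
    · exact ((k0c hβ).mul continuous_const).continuousOn.integrableOn_compact hcomp
    · exact mul_le_mul_of_nonneg_left ((Sc_triv h (blk m) (b α) (hb α) R α c).trans (blk_card m)) (k0n hβ α)
  rw [integral_mul_const] at h1
  have h2 := k0_good hβ
  have h3 : (0 : ℝ) ≤ 25 * 4 ^ m := by positivity
  nlinarith [mul_le_mul_of_nonneg_right h2 h3]

private lemma pow_ex (x : ℝ) : ∃ n : ℕ, x ≤ 2 ^ n := by
  obtain ⟨n, hn⟩ := pow_unbounded_of_one_lt x one_lt_two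
  exact ⟨n, hn.le⟩

/-- a multiple of a support function -/
private lemma supp_mul {H : ℝ → ℝ} (hH : IsSupp H) {r : ℝ} (hr : 0 < r) : IsSupp (fun θ => r * H θ) := by
  have e : deriv (deriv (fun θ => r * H θ)) = fun θ => r * deriv (deriv H) θ := by
    have e1 : deriv (fun θ => r * H θ) = fun θ => r * deriv H θ := by
      funext θ
      rw [deriv_const_mul_field]
    rw [e1]
    funext θ
    rw [deriv_const_mul_field]
  refine ⟨contDiff_const.mul hH.smooth, fun θ => ?_, fun θ => mul_pos hr (hH.pos θ), fun θ => ?_⟩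
  · show r * H (θ + 2 * π) = r * H θ
    rw [hH.per θ]
  · rw [e]
    show 0 < r * H θ + r * deriv (deriv H) θ
    rw [← mul_add]
    exact mul_pos hr (hH.rho_pos θ)

/-- logarithm against a power -/
private lemma nat_le_pow {ε : ℝ} (hε : 0 < ε) (N : ℕ) : (N : ℝ) ≤ 4 / (ε * log 2) * ((2 : ℝ) ^ N) ^ (1 / 4 * ε) := by
  have hl : 0 < log 2 := Real.log_pos (by norm_num)
  have h1 : ((2 : ℝ) ^ N) ^ (1 / 4 * ε) = exp (N * (log 2 * (1 / 4 * ε))) := by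
    rw [← Real.rpow_natCast, ← Real.rpow_mul (by norm_num), Real.rpow_def_of_pos (by norm_num)]
    congr 1
    ring
  have h2 := Real.add_one_le_exp (N * (log 2 * (1 / 4 * ε)))
  rw [h1]
  have h3 : (N : ℝ) = 4 / (ε * log 2) * (N * (log 2 * (1 / 4 * ε))) := by
    field_simp
  calc (N : ℝ) = 4 / (ε * log 2) * (N * (log 2 * (1 / 4 * ε))) := h3
    _ ≤ _ := mul_le_mul_of_nonneg_left (by linarith) (by positivity)

/-- one mean value against the weight -/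
private lemma one_mean {ε e1 e2 : ℝ} (hε : 0 < ε) (hε1 : ε ≤ 1) (he1 : 0 < e1) (he1' : 4 * e1 ≤ ε) (he2' : e2 ≤ 1 / 4)
    {N n r : ℕ} (hr : r < 2) (hn : (2 : ℝ) ^ n ≤ ((2 : ℝ) ^ N) ^ (1 / 2 + e2)) {y : ℝ}
    (h1 : ((2 : ℝ) ^ N) ^ ε ≤ (2 : ℝ) ^ (n + r) → y ≤ ((2 : ℝ) ^ (n + r)) ^ (3 / 2 + e1)) (h2 : y ≤ 500 * 4 ^ (n + r)) :
    ((2 : ℝ) ^ n) ^ (-(3 / 2) : ℝ) * y ≤ 2000 * ((2 : ℝ) ^ N) ^ (3 / 4 * ε) := by
  have hK : (0 : ℝ) < 2 ^ n := by positivity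
  have hK1 : (1 : ℝ) ≤ 2 ^ n := one_le_pow₀ (by norm_num)
  have hR : (1 : ℝ) ≤ 2 ^ N := one_le_pow₀ (by norm_num)
  have hR0 : (0 : ℝ) < 2 ^ N := by positivity
  have hr2 : (2 : ℝ) ^ (n + r) ≤ 2 * 2 ^ n := by
    rw [pow_add]
    have : (2 : ℝ) ^ r ≤ 2 ^ 1 := pow_le_pow_right₀ (by norm_num) (by omega)
    nlinarith
  by_cases h : ((2 : ℝ) ^ N) ^ ε ≤ (2 : ℝ) ^ (n + r)
  · have h3 : y ≤ 4 * ((2 : ℝ) ^ n) ^ (3 / 2 + e1) := by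
      refine (h1 h).trans ?_
      calc ((2 : ℝ) ^ (n + r)) ^ (3 / 2 + e1) ≤ (2 * 2 ^ n) ^ (3 / 2 + e1) :=
            Real.rpow_le_rpow (by positivity) hr2 (by linarith)
        _ = 2 ^ (3 / 2 + e1) * ((2 : ℝ) ^ n) ^ (3 / 2 + e1) := Real.mul_rpow (by norm_num) hK.le
        _ ≤ 4 * ((2 : ℝ) ^ n) ^ (3 / 2 + e1) := by
          refine mul_le_mul_of_nonneg_right ?_ (by positivity)
          calc (2 : ℝ) ^ (3 / 2 + e1) ≤ 2 ^ (2 : ℝ) := Real.rpow_le_rpow_of_exponent_le (by norm_num) (by linarith)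
            _ = 4 := by norm_num
    have h4 : ((2 : ℝ) ^ n) ^ (-(3 / 2) : ℝ) * ((2 : ℝ) ^ n) ^ (3 / 2 + e1) = ((2 : ℝ) ^ n) ^ e1 := by
      rw [← Real.rpow_add hK]
      congr 1
      ring
    have h5 : ((2 : ℝ) ^ n) ^ e1 ≤ ((2 : ℝ) ^ N) ^ (3 / 4 * ε) := by
      have h6 : (2 : ℝ) ^ n ≤ (2 ^ N) ^ (3 / 4 : ℝ) :=
        hn.trans (Real.rpow_le_rpow_of_exponent_le hR (by linarith))
      calc ((2 : ℝ) ^ n) ^ e1 ≤ (((2 : ℝ) ^ N) ^ (3 / 4 : ℝ)) ^ e1 := Real.rpow_le_rpow hK.le h6 he1.le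
        _ = ((2 : ℝ) ^ N) ^ (3 / 4 * e1) := by rw [← Real.rpow_mul hR0.le]
        _ ≤ _ := Real.rpow_le_rpow_of_exponent_le hR (by linarith)
    calc ((2 : ℝ) ^ n) ^ (-(3 / 2) : ℝ) * y ≤ ((2 : ℝ) ^ n) ^ (-(3 / 2) : ℝ) * (4 * ((2 : ℝ) ^ n) ^ (3 / 2 + e1)) :=
          mul_le_mul_of_nonneg_left h3 (by positivity)
      _ = 4 * ((2 : ℝ) ^ n) ^ e1 := by rw [← h4]; ring
      _ ≤ 4 * ((2 : ℝ) ^ N) ^ (3 / 4 * ε) := by linarith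
      _ ≤ _ := by
        have : (0 : ℝ) ≤ ((2 : ℝ) ^ N) ^ (3 / 4 * ε) := by positivity
        linarith
  · rw [not_le] at h
    have h3 : y ≤ 2000 * ((2 : ℝ) ^ n) ^ (2 : ℝ) := by
      refine h2.trans ?_
      have h4 : (4 : ℝ) ^ (n + r) ≤ 4 * 4 ^ n := by
        rw [pow_add]
        have : (4 : ℝ) ^ r ≤ 4 ^ 1 := pow_le_pow_right₀ (by norm_num) (by omega)
        have : (0 : ℝ) < 4 ^ n := by positivity
        nlinarith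
      have h5 : ((2 : ℝ) ^ n) ^ (2 : ℝ) = 4 ^ n := by
        rw [Real.rpow_two, ← pow_mul, mul_comm n 2, pow_mul]
        norm_num
      rw [h5]
      linarith
    have h4 : ((2 : ℝ) ^ n) ^ (-(3 / 2) : ℝ) * ((2 : ℝ) ^ n) ^ (2 : ℝ) = ((2 : ℝ) ^ n) ^ (1 / 2 : ℝ) := by
      rw [← Real.rpow_add hK]
      norm_num
    have h5 : ((2 : ℝ) ^ n) ^ (1 / 2 : ℝ) ≤ ((2 : ℝ) ^ N) ^ (3 / 4 * ε) := by
      have h6 : (2 : ℝ) ^ n ≤ ((2 : ℝ) ^ N) ^ ε := (pow_le_pow_right₀ (by norm_num) (by omega)).trans h.le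
      calc ((2 : ℝ) ^ n) ^ (1 / 2 : ℝ) ≤ (((2 : ℝ) ^ N) ^ ε) ^ (1 / 2 : ℝ) :=
            Real.rpow_le_rpow hK.le h6 (by norm_num)
        _ = ((2 : ℝ) ^ N) ^ (ε * (1 / 2)) := by rw [← Real.rpow_mul hR0.le]
        _ ≤ _ := Real.rpow_le_rpow_of_exponent_le hR (by linarith)
    calc ((2 : ℝ) ^ n) ^ (-(3 / 2) : ℝ) * y ≤ ((2 : ℝ) ^ n) ^ (-(3 / 2) : ℝ) * (2000 * ((2 : ℝ) ^ n) ^ (2 : ℝ)) :=
          mul_le_mul_of_nonneg_left h3 (by positivity)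
      _ = 2000 * ((2 : ℝ) ^ n) ^ (1 / 2 : ℝ) := by rw [← h4]; ring
      _ ≤ _ := mul_le_mul_of_nonneg_left h5 (by norm_num)

/-- Borel-Cantelli and summation, deterministic part: bounds for all blocks give the bound for all large radii and all centres -/
theorem sum_blocks {L : ℕ} {H₀ : ℝ → ℝ} (h0 : ContDiff ℝ 2 H₀) (hp : Function.Periodic H₀ (2 * π)) {ε e1 e2 : ℝ} (hε : 0 < ε)
    (hε1 : ε ≤ 1) (he1 : 0 < e1) (he1' : 4 * e1 ≤ ε) (he2 : 0 < e2) (he2' : e2 ≤ 1 / 4) {nT : ℕ} {C : ℝ} (hC : 0 ≤ C)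
    (b : ℕ → Fin nT → ℝ → ℤ × ℤ → ℂ) (hb : ∀ n i α k, ‖b n i α k‖ ≤ 1) (hbc : ∀ n i k, Continuous (fun α => b n i α k))
    (w : (Fin L → ℝ) × (Fin L → ℝ)) (hw : ∀ θ, 0 < Hw H₀ w θ + deriv (deriv (Hw H₀ w)) θ)
    (hty : ∀ (n : ℕ) (p : ℝ × ℝ) (R₀ R : ℝ), 1 ≤ R₀ →
        R ∈ Icc (R₀ / 2) (4 * R₀) → IsSupp (fun θ => R * (Hw H₀ w θ - (p.1 * cos θ + p.2 * sin θ))) → ∀ c : ℝ × ℝ, ∃ c' : ℝ × ℝ,
          ‖∑ k ∈ sqa (2 ^ n), ft (fun θ => R * (Hw H₀ w θ - (p.1 * cos θ + p.2 * sin θ))) k * ee (dt k c)‖ ≤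
            C * R₀ ^ (1 / 2 : ℝ) * ((2 : ℝ) ^ n) ^ (-(3 / 2) : ℝ) * (∑ i, ∑ r ∈ Finset.range 2,
              ∫ α in Icc (-π) π ∩ {α | 1 / 2 ≤ |cos α|}, k0 ((R₀ * 2 ^ n) ^ (-(1 / 2) : ℝ)) α *
                ‖Sc (Hw H₀ w) (blk (n + r)) (b n i α) R α c'‖) + C)
    {N₁ : ℕ} (hkey : ∀ N : ℕ, N₁ ≤ N → ∀ n : ℕ, ∀ i, ∀ r < 2, ((2 : ℝ) ^ N) ^ ε ≤ (2 : ℝ) ^ (n + r) →
      (2 : ℝ) ^ (n + r) ≤ ((2 : ℝ) ^ N) ^ (1 / 2 + e2) → ∀ R ∈ Icc ((2 : ℝ) ^ N / 2) (4 * 2 ^ N), ∀ c : ℝ × ℝ,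
        ∫ α in Icc (-π) π ∩ {α | 1 / 2 ≤ |cos α|}, k0 (((2 : ℝ) ^ N * 2 ^ n) ^ (-(1 / 2) : ℝ)) α *
          ‖Sc (Hw H₀ w) (blk (n + r)) (b n i α) R α c‖ ≤ ((2 : ℝ) ^ (n + r)) ^ (3 / 2 + e1)) :
    ∃ C' : ℝ, ∀ R : ℝ, 1 ≤ R → ∀ c : ℝ × ℝ,
      |cntc (Hw H₀ w) c R - area (Hw H₀ w) * R ^ 2| ≤ C' * R ^ (1 / 2 + ε) := by
  classical
  have hS2 := Hw_smooth h0 w
  have hSp := Hw_per hp w
  obtain ⟨p, hH⟩ := Pool.Agent.Helper11.AD.exists_inner hS2 hSp hw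
  obtain ⟨Cd, R₁, hR₁, hdil⟩ := Pool.Agent.Helper22.LP.dil_blocks hH (τ := 1 / 2) (e2 := e2 / 2) (by norm_num) (by norm_num)
    (by linarith)
  obtain ⟨N₂, hN₂⟩ := pow_ex R₁
  obtain ⟨N₃, hN₃⟩ : ∃ N₃ : ℕ, 2 / e2 ≤ N₃ := exists_nat_ge _
  obtain ⟨Cs, hCs, hsmall⟩ := Pool.Agent.Helper11.AD.small_rad_pow (Hw H₀ w) (2 ^ (N₁ + N₂ + N₃))
  have hl : 0 < log 2 := Real.log_pos (by norm_num)
  set D : ℝ := (4000 * C * nT + C) with hD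
  have hD0 : 0 ≤ D := by positivity
  refine ⟨Cs + |Cd| + D * (4 / (ε * log 2)), fun R hR c => ?_⟩
  have hRp : 1 ≤ R ^ (1 / 2 + ε) := Real.one_le_rpow hR (by positivity)
  rcases le_or_gt R (2 ^ (N₁ + N₂ + N₃)) with hcase | hcase
  · refine (hsmall R hR hcase c (1 / 2 + ε) (by linarith)).trans (mul_le_mul_of_nonneg_right ?_ (by positivity))
    have h1 : 0 ≤ D * (4 / (ε * log 2)) := by positivity
    have h2 := abs_nonneg Cd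
    linarith
  · obtain ⟨N, hN1, hN2⟩ := exists_nat_pow_near hR (one_lt_two)
    have hNN : N₁ + N₂ + N₃ ≤ N := by
      by_contra hcon
      have h1 : N + 1 ≤ N₁ + N₂ + N₃ := by omega
      have h2 : (2 : ℝ) ^ (N + 1) ≤ 2 ^ (N₁ + N₂ + N₃) := pow_le_pow_right₀ (by norm_num) h1
      linarith
    have hRmem : R ∈ Icc ((2 : ℝ) ^ N) (2 * 2 ^ N) := by
      refine ⟨hN1, ?_⟩
      rw [pow_succ] at hN2
      linarith
    have hR1 : (1 : ℝ) ≤ 2 ^ N := one_le_pow₀ (by norm_num)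
    have hR0 : (0 : ℝ) < 2 ^ N := by positivity
    have hexn : ∃ n : ℕ, ((2 : ℝ) ^ N) ^ (1 / 2 + e2 / 2) ≤ 2 ^ n := pow_ex _
    set n1 := Nat.find hexn with hn1
    have hn1s : ((2 : ℝ) ^ N) ^ (1 / 2 + e2 / 2) ≤ 2 ^ n1 := Nat.find_spec hexn
    have hn1N : n1 ≤ N := by
      apply Nat.find_min' hexn
      calc ((2 : ℝ) ^ N) ^ (1 / 2 + e2 / 2) ≤ ((2 : ℝ) ^ N) ^ (1 : ℝ) :=
            Real.rpow_le_rpow_of_exponent_le hR1 (by linarith)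
        _ = 2 ^ N := Real.rpow_one _
    -- two is at most the small power
    have htwo : (2 : ℝ) ≤ ((2 : ℝ) ^ N) ^ (e2 / 2) := by
      rw [← Real.rpow_natCast, ← Real.rpow_mul (by norm_num)]
      have h1 : (1 : ℝ) ≤ N * (e2 / 2) := by
        have h2 : (N₃ : ℝ) ≤ N := by exact_mod_cast (by omega : N₃ ≤ N)
        have h3 : 2 / e2 ≤ N := hN₃.trans h2
        rw [div_le_iff₀ he2] at h3
        linarith
      calc (2 : ℝ) = 2 ^ (1 : ℝ) := (Real.rpow_one _).symm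
        _ ≤ _ := Real.rpow_le_rpow_of_exponent_le (by norm_num) h1
    have hbig : R₁ ≤ 2 ^ N := hN₂.trans (pow_le_pow_right₀ (by norm_num) (by omega))
    have hblock : ∀ n < n1, ∀ r ∈ Icc ((2 : ℝ) ^ N / 2) (4 * 2 ^ N), ∀ c' : ℝ × ℝ,
        ‖∑ k ∈ sqa (2 ^ n), ft (fun θ => r * (Hw H₀ w θ - (p.1 * cos θ + p.2 * sin θ))) k * ee (dt k c')‖ ≤
          D * ((2 : ℝ) ^ N) ^ (1 / 2 + 3 / 4 * ε) := by
      intro n hn r hr c'
      have hn2 : (2 : ℝ) ^ n ≤ (2 ^ N) ^ (1 / 2 + e2 / 2) := by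
        have := Nat.find_min hexn hn
        rw [not_le] at this
        exact this.le
      have hn3 : (2 : ℝ) ^ n ≤ (2 ^ N) ^ (1 / 2 + e2) :=
        hn2.trans (Real.rpow_le_rpow_of_exponent_le hR1 (by linarith))
      have hr0 : 0 < r := lt_of_lt_of_le (by positivity) hr.1
      obtain ⟨c'', hc''⟩ := hty n p (2 ^ N) r hR1 hr (supp_mul hH hr0) c'
      have hone : (1 : ℝ) ≤ ((2 : ℝ) ^ N) ^ (1 / 2 + 3 / 4 * ε) := Real.one_le_rpow hR1 (by positivity)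
      have hβ : (0 : ℝ) < ((2 : ℝ) ^ N * 2 ^ n) ^ (-(1 / 2) : ℝ) := by positivity
      have hterm : ∀ i : Fin nT, ∀ r' ∈ Finset.range 2, ((2 : ℝ) ^ n) ^ (-(3 / 2) : ℝ) *
          (∫ α in Icc (-π) π ∩ {α | 1 / 2 ≤ |cos α|}, k0 (((2 : ℝ) ^ N * 2 ^ n) ^ (-(1 / 2) : ℝ)) α *
            ‖Sc (Hw H₀ w) (blk (n + r')) (b n i α) r α c''‖) ≤ 2000 * ((2 : ℝ) ^ N) ^ (3 / 4 * ε) := by
        intro i r' hr'
        rw [Finset.mem_range] at hr'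
        refine one_mean hε hε1 he1 he1' he2' hr' hn3 (fun h => ?_) ?_
        · refine hkey N (by omega) n i r' hr' h ?_ r hr c''
          calc (2 : ℝ) ^ (n + r') ≤ 2 ^ (n + 1) := pow_le_pow_right₀ (by norm_num) (by omega)
            _ = 2 * 2 ^ n := by rw [pow_succ]; ring
            _ ≤ ((2 : ℝ) ^ N) ^ (e2 / 2) * (2 ^ N) ^ (1 / 2 + e2 / 2) :=
              mul_le_mul htwo hn2 (by positivity) (by positivity)
            _ = ((2 : ℝ) ^ N) ^ (1 / 2 + e2) := by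
              rw [← Real.rpow_add hR0]
              congr 1
              ring
        · exact mean_triv (Hw H₀ w) (n + r') (b n i) (hb n i) r c'' hβ
      have hsum : ((2 : ℝ) ^ n) ^ (-(3 / 2) : ℝ) * (∑ i : Fin nT, ∑ r' ∈ Finset.range 2,
          ∫ α in Icc (-π) π ∩ {α | 1 / 2 ≤ |cos α|}, k0 (((2 : ℝ) ^ N * 2 ^ n) ^ (-(1 / 2) : ℝ)) α *
            ‖Sc (Hw H₀ w) (blk (n + r')) (b n i α) r α c''‖) ≤ nT * (4000 * ((2 : ℝ) ^ N) ^ (3 / 4 * ε)) := by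
        rw [Finset.mul_sum]
        refine (Finset.sum_le_card_nsmul _ _ (4000 * ((2 : ℝ) ^ N) ^ (3 / 4 * ε)) (fun i _ => ?_)).trans (le_of_eq ?_)
        · rw [Finset.mul_sum]
          refine (Finset.sum_le_card_nsmul _ _ _ (hterm i)).trans (le_of_eq ?_)
          rw [Finset.card_range, nsmul_eq_mul]
          push_cast
          ring
        · rw [Finset.card_univ, Fintype.card_fin, nsmul_eq_mul]
      refine hc''.trans ?_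
      have e3 : ((2 : ℝ) ^ N) ^ (1 / 2 : ℝ) * ((2 : ℝ) ^ N) ^ (3 / 4 * ε) = ((2 : ℝ) ^ N) ^ (1 / 2 + 3 / 4 * ε) := by
        rw [← Real.rpow_add hR0]
      calc C * ((2 : ℝ) ^ N) ^ (1 / 2 : ℝ) * ((2 : ℝ) ^ n) ^ (-(3 / 2) : ℝ) * (∑ i : Fin nT, ∑ r' ∈ Finset.range 2,
              ∫ α in Icc (-π) π ∩ {α | 1 / 2 ≤ |cos α|}, k0 (((2 : ℝ) ^ N * 2 ^ n) ^ (-(1 / 2) : ℝ)) α *
                ‖Sc (Hw H₀ w) (blk (n + r')) (b n i α) r α c''‖) + C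
          = C * ((2 : ℝ) ^ N) ^ (1 / 2 : ℝ) * (((2 : ℝ) ^ n) ^ (-(3 / 2) : ℝ) * (∑ i : Fin nT, ∑ r' ∈ Finset.range 2,
              ∫ α in Icc (-π) π ∩ {α | 1 / 2 ≤ |cos α|}, k0 (((2 : ℝ) ^ N * 2 ^ n) ^ (-(1 / 2) : ℝ)) α *
                ‖Sc (Hw H₀ w) (blk (n + r')) (b n i α) r α c''‖)) + C := by ring
        _ ≤ C * ((2 : ℝ) ^ N) ^ (1 / 2 : ℝ) * (nT * (4000 * ((2 : ℝ) ^ N) ^ (3 / 4 * ε))) +
            C * ((2 : ℝ) ^ N) ^ (1 / 2 + 3 / 4 * ε) :=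
          add_le_add (mul_le_mul_of_nonneg_left hsum (by positivity)) (le_mul_of_one_le_right hC hone)
        _ = D * ((2 : ℝ) ^ N) ^ (1 / 2 + 3 / 4 * ε) := by
          rw [← e3, hD]
          ring
    have hfin := hdil (2 ^ N) hbig n1 hn1s (fun _ => D * ((2 : ℝ) ^ N) ^ (1 / 2 + 3 / 4 * ε)) hblock R hRmem
      (c.1 + R * p.1, c.2 + R * p.2)
    rw [← Pool.Agent.Helper11.AD.cntc_shift (Hw H₀ w) p c R, ← Pool.Agent.Helper11.AD.area_shift (Hw H₀ w) p] at hfin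
    rw [Finset.sum_const, Finset.card_range, nsmul_eq_mul] at hfin
    have hRR : ((2 : ℝ) ^ N) ^ (1 / 2 + ε) ≤ R ^ (1 / 2 + ε) := Real.rpow_le_rpow hR0.le hN1 (by linarith)
    have h1 : Cd * ((2 : ℝ) ^ N) ^ (1 - 1 / 2 : ℝ) ≤ |Cd| * R ^ (1 / 2 + ε) := by
      calc Cd * ((2 : ℝ) ^ N) ^ (1 - 1 / 2 : ℝ) ≤ |Cd| * ((2 : ℝ) ^ N) ^ (1 - 1 / 2 : ℝ) :=
            mul_le_mul_of_nonneg_right (le_abs_self _) (by positivity)
        _ ≤ |Cd| * ((2 : ℝ) ^ N) ^ (1 / 2 + ε) :=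
            mul_le_mul_of_nonneg_left (Real.rpow_le_rpow_of_exponent_le hR1 (by linarith)) (abs_nonneg _)
        _ ≤ _ := mul_le_mul_of_nonneg_left hRR (abs_nonneg _)
    have h2 : (n1 : ℝ) * (D * ((2 : ℝ) ^ N) ^ (1 / 2 + 3 / 4 * ε)) ≤ D * (4 / (ε * log 2)) * R ^ (1 / 2 + ε) := by
      have h3 : (n1 : ℝ) ≤ 4 / (ε * log 2) * ((2 : ℝ) ^ N) ^ (1 / 4 * ε) := by
        refine le_trans ?_ (nat_le_pow hε N)
        exact_mod_cast hn1N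
      calc (n1 : ℝ) * (D * ((2 : ℝ) ^ N) ^ (1 / 2 + 3 / 4 * ε))
          ≤ (4 / (ε * log 2) * ((2 : ℝ) ^ N) ^ (1 / 4 * ε)) * (D * ((2 : ℝ) ^ N) ^ (1 / 2 + 3 / 4 * ε)) :=
            mul_le_mul_of_nonneg_right h3 (by positivity)
        _ = D * (4 / (ε * log 2)) * (((2 : ℝ) ^ N) ^ (1 / 4 * ε) * ((2 : ℝ) ^ N) ^ (1 / 2 + 3 / 4 * ε)) := by ring
        _ = D * (4 / (ε * log 2)) * ((2 : ℝ) ^ N) ^ (1 / 2 + ε) := by
            rw [← Real.rpow_add hR0]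
            congr 2
            ring
        _ ≤ _ := mul_le_mul_of_nonneg_left hRR (by positivity)
    have h4 : 0 ≤ Cs * R ^ (1 / 2 + ε) := by positivity
    calc |cntc (Hw H₀ w) c R - area (Hw H₀ w) * R ^ 2| ≤
          Cd * ((2 : ℝ) ^ N) ^ (1 - 1 / 2 : ℝ) + n1 * (D * ((2 : ℝ) ^ N) ^ (1 / 2 + 3 / 4 * ε)) := hfin
      _ ≤ |Cd| * R ^ (1 / 2 + ε) + D * (4 / (ε * log 2)) * R ^ (1 / 2 + ε) := add_le_add h1 h2
      _ ≤ _ := by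
        rw [add_mul, add_mul]
        linarith

end Pool.Agent.Helper90.AD
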